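import Pool.Agent.BOX.StmtsN

/-!
# Squad BOX, row CLN: the class functions for boxes of dimension `N ≥ 3`
-/

set_option autoImplicit false

namespace Pool.Agent.BOX.H49

open Pool.Agent.BOX
open Set Filter Topology MeasureTheory

theorem cln_all {N : ℕ} (F : G3 N → ℂ) (hF : ∀ p k, ∀ i : Fin N, F (p, flp i k) = F (p, k))
    (n : ℤ) (k : Fin N → ℤ) (hk : ∀ i, k i = n ∨ k i = -n) : F (n, k) = F (n, fun _ => n) := by
  classical
  have h : ∀ S : Finset (Fin N), F (n, fun j => if j ∈ S then n else k j) = F (n, k) := by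
    intro S
    induction S using Finset.induction_on with
    | empty => simp
    | insert a S ha ih =>
      rw [← ih]
      rcases hk a with h | h
      · refine congrArg (fun t => F (n, t)) (funext fun j => ?_)
        by_cases hj : j = a
        · subst hj
          simp [ha, h]
        · simp [hj]
      · rw [← hF n (fun j => if j ∈ S then n else k j) a]
        refine congrArg (fun t => F (n, t)) (funext fun j => ?_)
        show (if j ∈ insert a S then n else k j) =
          if j = a then -(if j ∈ S then n else k j) else (if j ∈ S then n else k j)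
        by_cases hj : j = a
        · subst hj
          simp [ha, h]
        · simp [hj]
  have := h Finset.univ
  simpa using this.symm

theorem cln_nr {N : ℕ} (n : ℤ) (k : Fin N → ℤ) (hk : ∀ i, |k i| = |n|) :
    nr3 ((n, k) : G3 N) = (N + 1) * n.natAbs := by
  unfold nr3
  have h : ∀ i ∈ (Finset.univ : Finset (Fin N)), (k i).natAbs = n.natAbs := fun i _ =>
    Int.natAbs_eq_natAbs_iff.2 (abs_eq_abs.1 (hk i))
  show n.natAbs + ∑ i, (k i).natAbs = _
  rw [Finset.sum_congr rfl h, Finset.sum_const, Finset.card_univ, Fintype.card_fin, smul_eq_mul]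
  ring

theorem cln_sum {N : ℕ} (f : ℤ → ℂ) (hf : Exd f) :
    ∃ r > 1, Summable fun g : G3 N => ‖cl3 f g‖ * (r : ℝ) ^ nr3 g := by
  classical
  obtain ⟨r, hr, hs⟩ := hf
  set ρ : ℝ := r ^ (1 / ((N : ℝ) + 1)) with hρ
  have hN : (0 : ℝ) < (N : ℝ) + 1 := by positivity
  have hr0 : 0 < r := by linarith
  have hρ1 : 1 < ρ := Real.one_lt_rpow hr (by positivity)
  have hρ0 : 0 < ρ := by linarith
  have hρr : ρ ^ (N + 1) = r := by
    rw [hρ, ← Real.rpow_natCast, ← Real.rpow_mul hr0.le]
    push_cast
    rw [one_div, inv_mul_cancel₀ hN.ne', Real.rpow_one]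
  refine ⟨ρ, hρ1, ?_⟩
  have hnn : (0 : G3 N → ℝ) ≤ fun g : G3 N => ‖cl3 f g‖ * ρ ^ nr3 g := fun g =>
    mul_nonneg (norm_nonneg _) (pow_nonneg hρ0.le _)
  rw [summable_prod_of_nonneg hnn]
  set S : ℤ → Finset (Fin N → ℤ) := fun n => Fintype.piFinset fun _ => ({n, -n} : Finset ℤ)
    with hS
  have hz : ∀ (n : ℤ) (k : Fin N → ℤ), k ∉ S n → ‖cl3 f ((n, k) : G3 N)‖ * ρ ^ nr3 (n, k) = 0 := by
    intro n k hk
    have h1 : cl3 f ((n, k) : G3 N) = 0 := by
      unfold cl3
      rw [if_neg]
      rintro ⟨-, h2⟩
      apply hk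
      rw [hS, Fintype.mem_piFinset]
      intro i
      rw [Finset.mem_insert, Finset.mem_singleton]
      exact abs_eq_abs.1 (h2 i)
    rw [h1, norm_zero, zero_mul]
  constructor
  · intro n
    exact summable_of_ne_finset_zero (s := S n) fun k hk => hz n k hk
  · have hcard : ∀ n, ((S n).card : ℝ) ≤ 2 ^ N := by
      intro n
      have h1 : (S n).card ≤ 2 ^ N := by
        rw [hS, Fintype.card_piFinset]
        refine (Finset.prod_le_prod' (fun i _ => Finset.card_le_two)).trans ?_
        rw [Finset.prod_const, Finset.card_univ, Fintype.card_fin]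
      exact_mod_cast h1
    refine Summable.of_nonneg_of_le (fun n => tsum_nonneg fun k => hnn (n, k)) (fun n => ?_)
      (hs.mul_left (2 ^ N))
    rw [tsum_eq_sum (s := S n) fun k hk => hz n k hk]
    refine (Finset.sum_le_card_nsmul _ _ (‖f n‖ * r ^ n.natAbs) fun k _ => ?_).trans ?_
    · by_cases hc : Odd n ∧ ∀ i, |k i| = |n|
      · have h1 : cl3 f ((n, k) : G3 N) = f n := by
          unfold cl3
          exact if_pos hc
        rw [h1, cln_nr n k hc.2, pow_mul, hρr]
      · have h1 : cl3 f ((n, k) : G3 N) = 0 := by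
          unfold cl3
          exact if_neg hc
        rw [h1, norm_zero, zero_mul]
        positivity
    · rw [nsmul_eq_mul]
      exact mul_le_mul_of_nonneg_right (hcard n) (by positivity)

theorem cln_pos (f : ℤ → ℂ) (hf : Exd f) : Exd (pos f) := by
  obtain ⟨r, hr, hs⟩ := hf
  refine ⟨r, hr, Summable.of_nonneg_of_le (fun n => by positivity) (fun n => ?_) hs⟩
  refine mul_le_mul_of_nonneg_right ?_ (by positivity)
  unfold pos
  split_ifs
  · exact le_rfl
  · rw [norm_zero]
    exact norm_nonneg _

/-- CLN. -/
theorem cln : ClnStmt := by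
  classical
  intro N hN
  constructor
  · intro f hf hodd
    refine ⟨⟨cln_sum _ (cln_pos f hf), ?_, ?_⟩, ?_, ?_⟩
    · intro p k i
      have h : (Odd p ∧ ∀ j, |flp i k j| = |p|) ↔ (Odd p ∧ ∀ j, |k j| = |p|) := by
        refine and_congr_right fun _ => forall_congr' fun j => ?_
        show |(if j = i then -k j else k j)| = |p| ↔ |k j| = |p|
        split_ifs
        · rw [abs_neg]
        · exact Iff.rfl
      show (if Odd p ∧ ∀ j, |flp i k j| = |p| then pos f p else 0) =
        if Odd p ∧ ∀ j, |k j| = |p| then pos f p else 0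
      by_cases hc : Odd p ∧ ∀ j, |k j| = |p|
      · rw [if_pos hc, if_pos (h.2 hc)]
      · rw [if_neg hc, if_neg fun hh => hc (h.1 hh)]
    · intro g hg
      have hc : Odd g.1 ∧ ∀ i, |g.2 i| = |g.1| := by
        by_contra h
        apply hg
        unfold cl3
        exact if_neg h
      refine ⟨hc.1, fun i => ?_⟩
      rcases abs_eq_abs.1 (hc.2 i) with h | h
      · rw [h]
        exact hc.1
      · rw [h]
        exact hc.1.neg
    · intro g hg
      unfold cl3
      by_cases hc : Odd g.1 ∧ ∀ i, |g.2 i| = |g.1|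
      · rw [if_pos hc]
        unfold pos
        by_cases h0 : 0 < g.1
        · exact absurd ⟨h0, hc.1, fun i => by rw [hc.2 i, abs_of_pos h0]⟩ hg
        · rw [if_neg h0]
      · rw [if_neg hc]
    · funext g
      show (2 * cl3 (pos f) g + (starRingEnd ℂ) (2 * cl3 (pos f) (-g.1, g.2))) / 2 = cl3 (hat f) g
      by_cases hc : Odd g.1 ∧ ∀ i, |g.2 i| = |g.1|
      · have hc' : Odd (-g.1) ∧ ∀ i, |g.2 i| = |-g.1| :=
          ⟨hc.1.neg, fun i => by rw [abs_neg]; exact hc.2 i⟩
        have e1 : cl3 (pos f) g = pos f g.1 := by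
          unfold cl3
          exact if_pos hc
        have e2 : cl3 (pos f) ((-g.1, g.2) : G3 N) = pos f (-g.1) := by
          unfold cl3
          exact if_pos hc'
        have e3 : cl3 (hat f) g = hat f g.1 := by
          unfold cl3
          exact if_pos hc
        rw [e1, e2, e3]
        unfold pos hat
        have hne : g.1 ≠ 0 := by
          intro h
          have := hc.1
          rw [h] at this
          exact (by decide : ¬ Odd (0 : ℤ)) this
        rcases lt_or_gt_of_ne hne with h | h
        · rw [if_neg (by omega), if_pos (by omega), if_neg (by omega), if_pos h]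
          rw [map_mul, Complex.conj_ofNat]
          ring
        · rw [if_pos h, if_neg (by omega), if_pos h, mul_zero, map_zero]
          ring
      · have hc' : ¬ (Odd (-g.1) ∧ ∀ i, |g.2 i| = |-g.1|) := by
          intro h
          apply hc
          refine ⟨?_, fun i => by rw [h.2 i, abs_neg]⟩
          have := h.1.neg
          rwa [neg_neg] at this
        have e1 : cl3 (pos f) g = 0 := by
          unfold cl3
          exact if_neg hc
        have e2 : cl3 (pos f) ((-g.1, g.2) : G3 N) = 0 := by
          unfold cl3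
          exact if_neg hc'
        have e3 : cl3 (hat f) g = 0 := by
          unfold cl3
          exact if_neg hc
        rw [e1, e2, e3]
        simp
  · intro F hF
    obtain ⟨⟨r, hr, hs⟩, hfl, -⟩ := hF
    constructor
    · refine ⟨r, hr, ?_⟩
      have hinj : Function.Injective (fun n : ℤ => ((n, fun _ => n) : G3 N)) := by
        intro a b h
        exact (Prod.mk.inj h).1
      have h1 := hs.comp_injective hinj
      refine Summable.of_nonneg_of_le (fun n => mul_nonneg (norm_nonneg _)
        (pow_nonneg (by linarith) _)) (fun n => ?_) h1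
      refine mul_le_mul_of_nonneg_left ?_ (norm_nonneg _)
      refine pow_le_pow_right₀ hr.le ?_
      show n.natAbs ≤ nr3 ((n, fun _ => n) : G3 N)
      rw [cln_nr n _ fun _ => rfl]
      nlinarith [Nat.zero_le (N * n.natAbs)]
    · intro g hg
      obtain ⟨hp, -, hk⟩ := hg
      exact cln_all F hfl g.1 g.2 fun i => (abs_eq hp.le).1 (hk i)

end Pool.Agent.BOX.H49
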