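import Pool.Agent.BOX.StmtsN

/-!
# Squad BOX, row NRM: lower bound of the divisors for boxes of dimension `N ≥ 3`
-/

set_option autoImplicit false

namespace Pool.Agent.BOX.H49

open Pool.Agent.BOX
open Set Filter Topology MeasureTheory

theorem nrm_key {N : ℕ} (l : Fin N → ℝ) (hl : ∀ i, 0 < l i) (k : Fin N → ℤ) :
    frq l k ^ 2 = Real.pi ^ 2 * ∑ i, (k i : ℝ) ^ 2 / l i ^ 2 := by
  unfold frq
  rw [Real.sq_sqrt (Finset.sum_nonneg fun i _ => sq_nonneg _), Finset.mul_sum]
  refine Finset.sum_congr rfl fun i _ => ?_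
  have := (hl i).ne'
  field_simp

theorem nrm_nonneg {N : ℕ} (l : Fin N → ℝ) (k : Fin N → ℤ) : 0 ≤ frq l k := Real.sqrt_nonneg _

theorem nrm_pos {N : ℕ} (l : Fin N → ℝ) (hN : 3 ≤ N) (hl : ∀ i, 0 < l i) :
    0 < frq l (fun _ => 1) := by
  haveI : Nonempty (Fin N) := ⟨⟨0, by omega⟩⟩
  unfold frq
  refine Real.sqrt_pos.2 (Finset.sum_pos (fun i _ => ?_) Finset.univ_nonempty)
  have := hl i
  push_cast
  positivity

theorem nrm_sg {N : ℕ} (l : Fin N → ℝ) (g : G3 N) :
    sg (th3 l) (frq l) g = (g.1 : ℝ) * frq l (fun _ => 1) - frq l g.2 := rfl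

/-- NRM. -/
theorem nrm : NrmStmt := by
  intro N l hN hl hD
  set om : ℝ := frq l (fun _ => 1) with hom
  have ho : 0 < om := nrm_pos l hN hl
  have ho2 : om ^ 2 = Real.pi ^ 2 * ∑ i, 1 / l i ^ 2 := by
    rw [hom, nrm_key l hl]
    simp
  constructor
  · obtain ⟨c₀, hc₀, τ₀, hD⟩ := hD
    have hpi : 0 < Real.pi := Real.pi_pos
    set c₁ : ℝ := Real.pi ^ 2 * c₀ / ((1 + (N : ℝ)) ^ τ₀ * (2 * om)) with hc₁
    have hc₁p : 0 < c₁ := by positivity
    refine ⟨min om c₁, lt_min ho hc₁p, 2 * τ₀ + 1, ?_⟩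
    intro g hodd hoddk hR
    rw [nrm_sg, ← hom]
    set s : ℝ := (nr3 g : ℝ) with hs
    have hs0 : 0 ≤ s := Nat.cast_nonneg _
    have hn0 : g.1 ≠ 0 := by
      intro h
      rw [h] at hodd
      exact (by decide : ¬ Odd (0 : ℤ)) hodd
    have hsn : |(g.1 : ℝ)| ≤ s := by
      have h1 : g.1.natAbs ≤ nr3 g := by
        unfold nr3
        omega
      have h2 : ((g.1.natAbs : ℕ) : ℝ) ≤ s := Nat.cast_le.2 h1
      rwa [Nat.cast_natAbs, Int.cast_abs] at h2
    have hsk : ∀ i, |(g.2 i : ℝ)| ≤ s := by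
      intro i
      have h1 : (g.2 i).natAbs ≤ nr3 g := by
        unfold nr3
        have := Finset.single_le_sum (f := fun i => (g.2 i).natAbs) (fun j _ => Nat.zero_le _)
          (Finset.mem_univ i)
        have h3 : (g.2 i).natAbs ≤ ∑ i, (g.2 i).natAbs := this
        omega
      have h2 : (((g.2 i).natAbs : ℕ) : ℝ) ≤ s := Nat.cast_le.2 h1
      rwa [Nat.cast_natAbs, Int.cast_abs] at h2
    have h1s : (1 : ℝ) ≤ 1 + s := by linarith
    have hpow : (1 : ℝ) ≤ (1 + s) ^ (2 * τ₀ + 1) := one_le_pow₀ h1s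
    rcases lt_or_gt_of_ne hn0 with hneg | hpos
    · -- negative frequency
      have h1 : (g.1 : ℝ) ≤ -1 := by exact_mod_cast (by omega : g.1 ≤ -1)
      have h2 : (g.1 : ℝ) * om - frq l g.2 ≤ -om := by
        have h3 := nrm_nonneg l g.2
        nlinarith
      have h4 : om ≤ |(g.1 : ℝ) * om - frq l g.2| := by
        rw [abs_of_nonpos (by linarith)]
        linarith
      refine le_trans ?_ h4
      refine (div_le_self (lt_min ho hc₁p).le hpow).trans (min_le_left _ _)
    · -- positive frequency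
      have h1 : (1 : ℝ) ≤ g.1 := by exact_mod_cast (by omega : 1 ≤ g.1)
      have hk0 := nrm_nonneg l g.2
      set m : Fin N → ℤ := fun i => g.1 ^ 2 - g.2 i ^ 2 with hm
      have hm0 : m ≠ 0 := by
        intro h
        apply hR
        refine ⟨hpos, hodd, fun i => ?_⟩
        have h2 : g.1 ^ 2 - g.2 i ^ 2 = 0 := congrFun h i
        have h3 : g.2 i ^ 2 = g.1 ^ 2 := by linarith
        have h4 := (sq_eq_sq_iff_abs_eq_abs _ _).1 h3
        rw [h4, abs_of_pos hpos]
      have hDm := hD m hm0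
      have hprod : ((g.1 : ℝ) * om - frq l g.2) * ((g.1 : ℝ) * om + frq l g.2) =
          Real.pi ^ 2 * ∑ i, (m i : ℝ) / l i ^ 2 := by
        have e1 : ((g.1 : ℝ) * om - frq l g.2) * ((g.1 : ℝ) * om + frq l g.2) =
            (g.1 : ℝ) ^ 2 * om ^ 2 - frq l g.2 ^ 2 := by ring
        rw [e1, ho2, nrm_key l hl]
        have e2 : ∑ i, (m i : ℝ) / l i ^ 2 =
            (g.1 : ℝ) ^ 2 * ∑ i, 1 / l i ^ 2 - ∑ i, (g.2 i : ℝ) ^ 2 / l i ^ 2 := by
          rw [Finset.mul_sum, ← Finset.sum_sub_distrib]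
          refine Finset.sum_congr rfl fun i _ => ?_
          rw [hm]
          push_cast
          ring
        rw [e2]
        ring
      have hkle : frq l g.2 ≤ s * om := by
        have h2 : frq l g.2 ^ 2 ≤ (s * om) ^ 2 := by
          rw [mul_pow, ho2, nrm_key l hl, ← mul_assoc, mul_comm (s ^ 2), mul_assoc]
          refine mul_le_mul_of_nonneg_left ?_ (sq_nonneg _)
          rw [Finset.mul_sum]
          refine Finset.sum_le_sum fun i _ => ?_
          rw [mul_one_div]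
          refine div_le_div_of_nonneg_right ?_ (sq_nonneg _)
          rw [← sq_abs]
          exact pow_le_pow_left₀ (abs_nonneg _) (hsk i) 2
        exact (sq_le_sq₀ hk0 (mul_nonneg hs0 ho.le)).1 h2
      have hnle : (g.1 : ℝ) * om ≤ s * om := by
        refine mul_le_mul_of_nonneg_right ?_ ho.le
        exact (le_abs_self _).trans hsn
      have hsum : (g.1 : ℝ) * om + frq l g.2 ≤ (1 + s) * (2 * om) := by nlinarith
      have hsump : 0 < (g.1 : ℝ) * om + frq l g.2 := by nlinarith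
      have hms : 1 + ∑ i, |(m i : ℝ)| ≤ (1 + (N : ℝ)) * (1 + s) ^ 2 := by
        have h2 : ∀ i ∈ (Finset.univ : Finset (Fin N)), |(m i : ℝ)| ≤ s ^ 2 := by
          intro i _
          rw [hm]
          push_cast
          have h3 : (g.1 : ℝ) ^ 2 ≤ s ^ 2 := by
            rw [← sq_abs]
            exact pow_le_pow_left₀ (abs_nonneg _) hsn 2
          have h4 : (g.2 i : ℝ) ^ 2 ≤ s ^ 2 := by
            rw [← sq_abs]
            exact pow_le_pow_left₀ (abs_nonneg _) (hsk i) 2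
          rw [abs_le]
          constructor
          · nlinarith [sq_nonneg (g.1 : ℝ)]
          · nlinarith [sq_nonneg (g.2 i : ℝ)]
        have h5 := Finset.sum_le_sum h2
        rw [Finset.sum_const, Finset.card_univ, Fintype.card_fin, nsmul_eq_mul] at h5
        have hNr : (0 : ℝ) ≤ N := Nat.cast_nonneg _
        nlinarith
      have hms0 : 0 < 1 + ∑ i, |(m i : ℝ)| := by
        have : 0 ≤ ∑ i, |(m i : ℝ)| := Finset.sum_nonneg fun i _ => abs_nonneg _
        linarith
      have hDm' : c₀ / ((1 + (N : ℝ)) * (1 + s) ^ 2) ^ τ₀ ≤ |∑ i, (m i : ℝ) / l i ^ 2| := by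
        refine le_trans ?_ hDm
        refine div_le_div_of_nonneg_left hc₀.le (by positivity) ?_
        exact pow_le_pow_left₀ hms0.le hms _
      have habs : |(g.1 : ℝ) * om - frq l g.2| * ((g.1 : ℝ) * om + frq l g.2) =
          Real.pi ^ 2 * |∑ i, (m i : ℝ) / l i ^ 2| := by
        have e : |((g.1 : ℝ) * om - frq l g.2) * ((g.1 : ℝ) * om + frq l g.2)| =
            |(g.1 : ℝ) * om - frq l g.2| * ((g.1 : ℝ) * om + frq l g.2) := by
          rw [abs_mul, abs_of_pos hsump]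
        rw [← e, hprod, abs_mul, abs_of_pos (by positivity : 0 < Real.pi ^ 2)]
      have hfin : c₁ / (1 + s) ^ (2 * τ₀ + 1) ≤ |(g.1 : ℝ) * om - frq l g.2| := by
        have h6 : |(g.1 : ℝ) * om - frq l g.2| * ((g.1 : ℝ) * om + frq l g.2) ≤
            |(g.1 : ℝ) * om - frq l g.2| * ((1 + s) * (2 * om)) :=
          mul_le_mul_of_nonneg_left hsum (abs_nonneg _)
        have h7 : Real.pi ^ 2 * (c₀ / ((1 + (N : ℝ)) * (1 + s) ^ 2) ^ τ₀) ≤
            |(g.1 : ℝ) * om - frq l g.2| * ((1 + s) * (2 * om)) := by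
          refine (mul_le_mul_of_nonneg_left hDm' (by positivity)).trans ?_
          rw [← habs]
          exact h6
        have h8 : c₁ / (1 + s) ^ (2 * τ₀ + 1) =
            Real.pi ^ 2 * (c₀ / ((1 + (N : ℝ)) * (1 + s) ^ 2) ^ τ₀) / ((1 + s) * (2 * om)) := by
          rw [hc₁, mul_pow, ← pow_mul, pow_succ]
          field_simp
          try ring
        rw [h8, div_le_iff₀ (by positivity)]
        exact h7
      refine le_trans ?_ hfin
      exact div_le_div_of_nonneg_right (min_le_right _ _) (by positivity)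
  · intro g hg
    obtain ⟨hp, -, hk⟩ := hg
    rw [nrm_sg, ← hom]
    have h1 : frq l g.2 ^ 2 = ((g.1 : ℝ) * om) ^ 2 := by
      rw [mul_pow, ho2, nrm_key l hl, ← mul_assoc, mul_comm ((g.1 : ℝ) ^ 2), mul_assoc]
      refine congrArg (fun t : ℝ => Real.pi ^ 2 * t) ?_
      rw [Finset.mul_sum]
      refine Finset.sum_congr rfl fun i _ => ?_
      have h2 : (g.2 i : ℝ) ^ 2 = (g.1 : ℝ) ^ 2 := by
        have h3 : g.2 i ^ 2 = g.1 ^ 2 := by
          rw [← sq_abs, hk i]
        exact_mod_cast h3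
      rw [h2, mul_one_div]
    have h2 : (0 : ℝ) < g.1 := by exact_mod_cast hp
    have h3 := (sq_eq_sq₀ (nrm_nonneg l g.2) (mul_nonneg h2.le ho.le)).1 h1
    rw [h3, sub_self]

end Pool.Agent.BOX.H49
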